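import Mathlib
import Pool.Agent.helper825_CS.InvLeast

set_option autoImplicit false

/-!
# Large least primes in a residue class and, at the same time, in the inverse class modulo a prime

Let `f(x) = log x (log₂ x)² log₄ x / (log₃ x)²` (iterated natural logarithms) and let `p(q, x)` be the least prime
`≡ x (mod q)`. For every large prime `q` there is an `x` such that BOTH `p(q, x)` and `p(q, x⁻¹)` are greater than
`c q f(q)`, the order of the largest values of `p(q, x)` known for a general prime `q` (starting files). More generally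
every modular hyperbola `x y ≡ a (mod q)`, `a ≢ 0`, has a point `(x, y)` with this property in every box with sides
`L, K` inside `[1, q]²` with `L K ≥ q^(3/2 + ε)`.

Method. By Weil's bound for Kloosterman sums the points of the hyperbola in the box are equidistributed modulo all
integers up to `q^δ` in both coordinates together (`helper825_CS.Hyp_count`); with `u q ≡ 1` modulo these integers the
covering sieve (`helper825_SB.gen0S`) is applied to the points `(u x, u y)`.
-/

namespace Pool.Agent.Results.MP_5b0a7e_nt.LeastPrimesInInverseClasses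

/-- The record scale `f(x) = log x (log₂ x)² log₄ x / (log₃ x)²` (iterated natural logarithms). -/
noncomputable def f (x : ℝ) : ℝ :=
  Real.log x * (Real.log (Real.log x)) ^ 2 * Real.log (Real.log (Real.log (Real.log x))) /
    (Real.log (Real.log (Real.log x))) ^ 2

/-- For every `ε > 0` there are `c > 0` and `q₀` such that for all primes `q ≥ q₀`, all residues `a ≠ 0` modulo `q`
and all `N, L, M, K` with `N + L ≤ q`, `M + K ≤ q` and `L K ≥ q^(3/2 + ε)` there are integers `x, y` with
`N < x ≤ N + L`, `M < y ≤ M + K` and `x y ≡ a (mod q)` such that every prime `≡ x (mod q)` and every prime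
`≡ y (mod q)` is greater than `c q f(q)`. -/
theorem result (ε : ℝ) (hε : 0 < ε) : ∃ c : ℝ, 0 < c ∧ ∃ q₀ : ℕ, ∀ q : ℕ, q₀ ≤ q → q.Prime →
    ∀ a : ZMod q, a ≠ 0 → ∀ N L M K : ℕ, N + L ≤ q → M + K ≤ q →
    (q : ℝ) ^ (3 / 2 + ε) ≤ (L : ℝ) * K →
    ∃ x y : ℕ, N < x ∧ x ≤ N + L ∧ M < y ∧ y ≤ M + K ∧ (x : ZMod q) * (y : ZMod q) = a ∧
      ∀ p : ℕ, p.Prime → (p ≡ x [MOD q] ∨ p ≡ y [MOD q]) → c * (q * f q) < p :=
  Pool.Agent.helper825_CS.inv_least ε hε

end Pool.Agent.Results.MP_5b0a7e_nt.LeastPrimesInInverseClasses
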