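import Pool.Agent.Helper123.SM.Prog

set_option autoImplicit false

/-! # Least primes in one residue class modulo many moduli at once

For every `A` there are `c > 0` and `X₀` such that for all `X ≥ X₀`, every finite set `𝒬` of
moduli `q ≥ X` with `log q ≤ (log X)^A` whose product `D` has at most `(log X) / 20` prime
factors, and all `M : ℕ → ℕ` with `∑ M(q) ≤ c (φ(D) / D) log X log log X`, there is one `a` with
`X / 2 ≤ a < X`, coprime to every `q ∈ 𝒬`, such that every prime `p ≡ a (mod q)` exceeds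
`M(q) q`, for all `q ∈ 𝒬` simultaneously. -/

namespace Pool.Agent.Results.MP_5b0a7e_nt.ManyModuli

theorem result : ∀ A : ℕ, ∃ c : ℝ, 0 < c ∧ ∃ X₀ : ℕ, ∀ X : ℕ, X₀ ≤ X →
    ∀ 𝒬 : Finset ℕ, (∀ q ∈ 𝒬, X ≤ q ∧ Real.log q ≤ (Real.log X) ^ A) →
    ((∏ q ∈ 𝒬, q).primeFactors.card : ℝ) ≤ Real.log X / 20 →
    ∀ M : ℕ → ℕ, (∑ q ∈ 𝒬, (M q : ℝ)) ≤
      c * ((Nat.totient (∏ q ∈ 𝒬, q) : ℝ) / ((∏ q ∈ 𝒬, q : ℕ) : ℝ)) *
        (Real.log X * Real.log (Real.log X)) →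
    ∃ a : ℕ, (X : ℝ) / 2 ≤ a ∧ a < X ∧ ∀ q ∈ 𝒬, Nat.Coprime a q ∧
      ∀ p : ℕ, p.Prime → p ≡ a [MOD q] → M q * q < p :=
  Pool.Agent.Helper123.SM.Prog.many_moduli

end Pool.Agent.Results.MP_5b0a7e_nt.ManyModuli
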